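import Pool.Agent.Q263.HS.Fin

/-!
# Structurally stable and `Ω`-stable diffeomorphisms and actions which commute with them

Project HS of helper263 with helpers 146, 176, 223 (and, for the modules of project HR, helpers
26, 150, 166, 239).  Definitions: `Pool/Agent/Q263/HS/Def.lean` (`IsHyp`, `IsCentreHyp`,
`ChainCovered`, `AxiomA`, `StructStable`), `Pool/Agent/H728R2/OS/Defs.lean` (`Omega`, `Per`, `ChainRec`),
`Pool/Agent/TH80/OMS/Defs.lean` (`OmegaStable`), `Pool/Agent/H718R2/G0.lean` (`DiffM`, `strongTop`).
-/

set_option autoImplicit false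

open scoped Manifold ContDiff Topology
open Set Pool.Agent.H718R2.G Q263.HS

universe u

namespace Pool.Agent.Results.MP_4a0782_an.CentreHyperbolic

/-- Let `F` be a structurally stable or `Ω`-stable `C^r` diffeomorphism of the closed manifold `N`,
`1 ≤ r ≤ ∞`.

1. No diffeomorphism `G` in a neighbourhood of `F` has a nonempty compact set `Λ`, `G(Λ) = Λ`, which is
   hyperbolic transversally to the orbits of a `C^r` action of some `ℝ^k`, `k ≥ 1`, which commutes with
   `G` and is locally free on `Λ`.
2. If the chain recurrent set of `F` is contained in the union of a hyperbolic set `Λ₀` and of any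
   family `S` of sets as in 1 (the actions may be different), then `F` satisfies Axiom A. -/
theorem result (n : ℕ) (N : Type u) [MetricSpace N] [CompactSpace N] [ChartedSpace (V n) N]
    [IsManifold (𝓡 n) ∞ N] (r : ℕ∞) (hr : 1 ≤ r) (F : DiffM n N r)
    (hF : StructStable n N r F ∨ Pool.Agent.TH80.OMS.OmegaStable n N r F) :
    (∃ U : Set (DiffM n N r), IsOpen[strongTop n N r] U ∧ F ∈ U ∧
      ∀ G ∈ U, ∀ Λ : Set N, IsCentreHyp (V n) r G.toHomeomorph Λ → Λ = ∅) ∧
    (ChainCovered (V n) r F.toHomeomorph → AxiomA (V n) F.toHomeomorph) := by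
  have h0 : Pool.Agent.TH80.OMS.OmegaStable n N r F := hF.elim omegaStable_of_struct id
  exact ⟨stable_no_centre hr h0, fun h => (stable_axiomA hr h0 h).1⟩

end Pool.Agent.Results.MP_4a0782_an.CentreHyperbolic
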