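import Pool.Agent.Q263.IC.Main
import Pool.Agent.Q26.IC3.Act

/-!
# Periodic points on invariant circles and tori of stable diffeomorphisms

Project IC of helper263 with helpers 26, 121, 166.  Definitions: `Pool/Agent/Q263/IC/Def.lean`
(`TorusCycle`, `Adm`), `Pool/Agent/Q263/IC/Def2.lean` (`MorseOn`, `ToriCovered`),
`Pool/Agent/Q192/FT/Defs.lean` (`cyc`, the union of the tori of a cycle),
`Pool/Agent/Q263/HS/Def.lean` (`IsHyp`, `IsCentreHyp`, `AxiomA`, `StructStable`),
`Pool/Agent/H728R2/OS/Defs.lean` (`Omega`, `Per`, `ChainRec`, `NoCycle`),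
`Pool/Agent/TH80/OMS/Defs.lean` (`OmegaStable`), `Pool/Agent/H718R2/G0.lean` (`DiffM`,
`strongTop`).
-/

set_option autoImplicit false

open scoped Manifold ContDiff Topology
open Set Pool.Agent.H718R2.G Pool.Agent.H728R2.OS Pool.Agent.Q192.FT Q263.HS Q263.IC

universe u

namespace Pool.Agent.Results.MP_4a0782_an.PeriodicPointsOnTori

/-- Let `F` be a structurally stable or `Ω`-stable `C^r` diffeomorphism of the closed manifold `N`,
`1 ≤ r ≤ ∞`.

Let `K` be the union of a cycle of invariant tori of `F` of class `C^r`, such that the return map is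
any `C^r` diffeomorphism of the circle, or a `C^r` diffeomorphism of `𝕋^d` which preserves the
standard flag and its orientations.  Then `F` has finitely many periodic points on `K`, at least one,
they are hyperbolic, and all chain recurrent points of the restriction of `F` to `K` are periodic. -/
theorem result (n : ℕ) (N : Type u) [MetricSpace N] [CompactSpace N] [ChartedSpace (V n) N]
    [IsManifold (𝓡 n) ∞ N] (r : ℕ∞) (hr : 1 ≤ r) (F : DiffM n N r)
    (hF : Q263.HS.StructStable n N r F ∨ Pool.Agent.TH80.OMS.OmegaStable n N r F) (d m : ℕ)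
    (E : V n → N) (f : Torus d ≃ₜ Torus d) (H : TorusCycle n r F d m E f) (hf : Adm r f) :
    MorseOn n F (cyc n F d m E) :=
  morseOn Pool.Agent.Q26.IC3.act hr (hF.elim omegaStable_of_struct id) H hf

end Pool.Agent.Results.MP_4a0782_an.PeriodicPointsOnTori
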