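import Pool.Agent.Q192.FT.Stab2

/-!
# Stable diffeomorphisms and the functions which they do not decrease

Author: helper192. Definitions: `Pool/Agent/Q192/FT/SDefs.lean` (`LimTori`, `NoDecreaseTori`,
`CritFun`, `ConjInto`, `StructStable`), `Pool/Agent/Q192/FT/Defs.lean` (`CritTori`, `CritTorus`,
`Tame`), `Pool/Agent/Y318/MN/Dyn.lean` (`CritInv`), `Pool/Agent/H718R2/G0.lean` (`DiffM`,
`strongTop`), `Pool/Agent/TH80/OMS/Defs.lean` (`Omega`, `OmegaStable`).

Starting theorems used: `MonotoneFunction` of the problem on the converse of the `Ω`-stability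
theorem (helper318; its proof contains the perturbation used in part 1), project CO (helper504 and
others), `FlagDiffeos`, `LinearFlags`.
-/

set_option autoImplicit false

open scoped Manifold ContDiff Topology

universe u

namespace Pool.Agent.Results.MP_4a0782_an.StableMonotone

open Pool.Agent.H718R2.G Pool.Agent.TH80.OMS Pool.Agent.Y504.CO Pool.Agent.Y318.MN
  Pool.Agent.Q192.FT

/-- Let `F` be a structurally stable or `Ω`-stable `C^r` diffeomorphism of the closed manifold `N`,
`1 ≤ r ≤ ∞`.

1. Let `h` be any smooth function with `h ∘ F ≥ h`. Then `h` is critical at all points of the closure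
   of the set of the periodic points, and `F` on `Ω(F)` is topologically conjugate to the restriction
   of `F` to a closed invariant set of points whose whole orbit consists of critical points of `h`.
2. If `F` is a limit in `Diff^r(N)` of diffeomorphisms which satisfy `NoDecreaseTori` (with functions
   and tori which depend on the diffeomorphism), then `F` satisfies Axiom A: `Ω(F)` is finite and
   consists of hyperbolic periodic points; and all smooth first integrals of `F` are locally
   constant (`CritFun`). -/
theorem result (n : ℕ) (N : Type u) [TopologicalSpace N] [T2Space N] [CompactSpace N]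
    [ChartedSpace (V n) N] [IsManifold (𝓡 n) ∞ N] (r : ℕ∞) (hr : 1 ≤ r) (F : DiffM n N r)
    (hF : StructStable n N r F ∨ OmegaStable n N r F) :
    (∀ h : N → ℝ, Mono n h F →
      (∀ p ∈ closure (Per F), IsCrit n h p) ∧ ConjInto F (CritInv n F h)) ∧
    (LimTori n N r F →
      (Omega F).Finite ∧ (∀ p ∈ Omega F, IsHyperbolicPer n F p) ∧ CritFun n F) :=
  have h0 := omegaStable_of hF
  ⟨fun _ hh => stable_fun hr h0 hh.1 hh.2, fun hlim =>
    have h1 := stable_tori hr h0 hlim
    ⟨h1.1.1, h1.2, fun_of_finite hr h0 h1⟩⟩

end Pool.Agent.Results.MP_4a0782_an.StableMonotone
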